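import Pool.Agent.helper45.TF.Defs2

/-!
Module PR (MP_5b8da6_gt): small paths are homologous to their simplicial approximation.
-/

namespace Pool.Agent.helper45.TF

open Set Topology

/-- half-spaces are convex -/
theorem PR_convex {h : Set E3} (hh : IsHalfSpace h) : Convex ℝ h := by
  obtain ⟨a, -, c, rfl | rfl⟩ := hh
  · intro x hx y hy s t hs ht hst
    simp only [Set.mem_ofPred_eq] at hx hy ⊢
    rw [inner_add_right, inner_smul_right, inner_smul_right]
    calc s * inner ℝ a x + t * inner ℝ a y ≤ s * c + t * c :=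
          add_le_add (mul_le_mul_of_nonneg_left hx hs) (mul_le_mul_of_nonneg_left hy ht)
      _ = c := by rw [← add_mul, hst, one_mul]
  · intro x hx y hy s t hs ht hst
    simp only [Set.mem_ofPred_eq] at hx hy ⊢
    rw [inner_add_right, inner_smul_right, inner_smul_right]
    rcases eq_or_lt_of_le hs with h0 | h0
    · have h1 : t = 1 := by linarith
      rw [← h0, h1]; linarith
    · have h1 : s * inner ℝ a x < s * c := mul_lt_mul_of_pos_left hx h0
      have h2 : t * inner ℝ a y ≤ t * c := mul_le_mul_of_nonneg_left hy.le ht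
      calc s * inner ℝ a x + t * inner ℝ a y < s * c + t * c := by linarith
        _ = c := by rw [← add_mul, hst, one_mul]

variable {V : Type} [Fintype V] [DecidableEq V]

theorem PR_cell_convex (s : Finset V) : Convex ℝ (cell s) := by
  rintro x ⟨hx1, hx2, hx3⟩ y ⟨hy1, hy2, hy3⟩ a b ha hb hab
  refine ⟨fun v => ?_, ?_, fun v hv => ?_⟩
  · show 0 ≤ a * x v + b * y v
    exact add_nonneg (mul_nonneg ha (hx1 v)) (mul_nonneg hb (hy1 v))
  · show ∑ v, (a * x v + b * y v) = 1
    rw [Finset.sum_add_distrib, ← Finset.mul_sum, ← Finset.mul_sum, hx2, hy2]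
    linarith
  · show a * x v + b * y v = 0
    rw [hx3 v hv, hy3 v hv]; simp

theorem PR_vert_cell {s : Finset V} {v : V} (hv : v ∈ s) : vert v ∈ cell s := by
  refine ⟨fun w => ?_, ?_, fun w hw => ?_⟩
  · unfold vert; split_ifs <;> norm_num
  · unfold vert; simp
  · unfold vert
    rw [if_neg]
    rintro rfl
    exact hw hv

theorem PR_poly_add (p : V → E3) (x y : V → ℝ) (a b : ℝ) :
    polyMap p (a • x + b • y) = a • polyMap p x + b • polyMap p y := by
  unfold polyMap
  rw [Finset.smul_sum, Finset.smul_sum, ← Finset.sum_add_distrib]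
  refine Finset.sum_congr rfl fun v _ => ?_
  rw [Pi.add_apply, Pi.smul_apply, Pi.smul_apply, smul_eq_mul, smul_eq_mul, add_smul, mul_smul,
    mul_smul]

theorem PR_poly_vert (p : V → E3) (v : V) : polyMap p (vert v) = p v := by
  unfold polyMap vert
  simp

/-- a point of the surface in `h` with positive coordinates at `u`, `v`, both in `h` -/
theorem PR_mem {S : ClosedSurface V} {p : V → E3} {h : Set E3} (hh : IsHalfSpace h)
    {x : V → ℝ} (hx : x ∈ S.pre p h) {u v : V} (hu : p u ∈ h) (hv : p v ∈ h)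
    (hxu : 0 < x u) (hxv : 0 < x v) {a b : ℝ} (ha : 0 ≤ a) (ha' : a ≤ 1) (hb : 0 ≤ b)
    (hb' : b ≤ 1) :
    (1 - b) • x + b • ((1 - a) • vert u + a • vert v) ∈ S.pre p h := by
  obtain ⟨⟨s, hs, hxs⟩, hxh⟩ := hx
  have hus : u ∈ s := by
    by_contra hn
    rw [hxs.2.2 u hn] at hxu
    exact lt_irrefl _ hxu
  have hvs : v ∈ s := by
    by_contra hn
    rw [hxs.2.2 v hn] at hxv
    exact lt_irrefl _ hxv
  have h1 : (1 - a) • vert u + a • vert v ∈ cell s :=
    PR_cell_convex s (PR_vert_cell hus) (PR_vert_cell hvs) (by linarith) ha (by ring)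
  have h2 : (1 - b) • x + b • ((1 - a) • vert u + a • vert v) ∈ cell s :=
    PR_cell_convex s hxs h1 (by linarith) hb (by ring)
  refine ⟨⟨s, hs, h2⟩, ?_⟩
  rw [PR_poly_add, PR_poly_add, PR_poly_vert, PR_poly_vert]
  have hc := PR_convex hh
  exact hc hxh (hc hu hv (by linarith) ha (by ring)) (by linarith) hb (by ring)

theorem PR_grid_val (n i : ℕ) (hn : 0 < n) (hi : i ≤ n) : ((gridPt n i : unitInterval) : ℝ) =
    (i : ℝ) / n := by
  unfold gridPt
  have hn' : (0 : ℝ) < n := by exact_mod_cast hn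
  have hi' : (i : ℝ) ≤ n := by exact_mod_cast hi
  have h : (i : ℝ) / n ∈ Set.Icc (0 : ℝ) 1 := by
    refine ⟨by positivity, ?_⟩
    rw [div_le_one hn']; exact hi'
  rw [Set.projIcc_of_mem zero_le_one h]

theorem PR_char (M : Type*) [AddCommGroup M] [Module (ZMod 2) M] (x : M) : x + x = 0 := by
  have : (2 : ZMod 2) • x = 0 := by
    rw [show (2 : ZMod 2) = 0 from rfl, zero_smul]
  rw [← this, two_smul]

theorem PR_tel {M : Type*} [AddCommGroup M] [Module (ZMod 2) M] (a : ℕ → M) (n : ℕ) :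
    ∑ i ∈ Finset.range n, (a i + a (i + 1)) = a 0 + a n := by
  induction n with
  | zero => rw [Finset.sum_range_zero, PR_char]
  | succ n ih =>
    rw [Finset.sum_range_succ, ih]
    calc a 0 + a n + (a n + a (n + 1)) = a 0 + (a n + a n) + a (n + 1) := by abel
      _ = a 0 + a (n + 1) := by rw [PR_char, add_zero]

theorem PR (hBIN : BIN_stmt) (hSQ : SQ_stmt) (hSD : SD_stmt) : PR_stmt := by
  intro V _ _ S p h hh r γ n hn hγ hr hsm
  have hn' : (0 : ℝ) < n := by exact_mod_cast hn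
  set s : ℕ → unitInterval := gridPt n with hs
  have hs0 : s 0 = 0 := by
    apply Subtype.ext
    rw [hs, PR_grid_val n 0 hn (Nat.zero_le n)]
    simp
  have hsn : s n = 1 := by
    apply Subtype.ext
    rw [hs, PR_grid_val n n hn le_rfl, div_self hn'.ne']
    rfl
  have hsd := hSD V (S.pre p h) γ hγ n s hs0 hsn
  -- one piece
  have hpiece : ∀ i ∈ Finset.range n, BoundsIn (S.pre p h)
      (Finsupp.single (γ.comp (unitSeg (s i) (s (i + 1)))) 1
        + Finsupp.single (segPath (vert (r (γ (s i)))) (vert (r (γ (s (i + 1)))))) 1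
        + Finsupp.single (segPath (γ (s i)) (vert (r (γ (s i))))) 1
        + Finsupp.single (segPath (γ (s (i + 1))) (vert (r (γ (s (i + 1)))))) 1) := by
    intro i hi
    rw [Finset.mem_range] at hi
    set H : C(unitInterval × unitInterval, V → ℝ) :=
      { toFun := fun z => (1 - (z.2 : ℝ)) • γ (unitSeg (s i) (s (i + 1)) z.1) +
          (z.2 : ℝ) • ((1 - (z.1 : ℝ)) • vert (r (γ (s i))) +
            (z.1 : ℝ) • vert (r (γ (s (i + 1)))))
        continuous_toFun := by fun_prop } with hH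
    have hv1 : ((s i : unitInterval) : ℝ) = (i : ℝ) / n := PR_grid_val n i hn (by omega)
    have hv2 : ((s (i + 1) : unitInterval) : ℝ) = ((i : ℝ) + 1) / n := by
      rw [hs, PR_grid_val n (i + 1) hn (by omega)]; push_cast; ring
    have hunit : ∀ t : unitInterval, ((unitSeg (s i) (s (i + 1)) t : unitInterval) : ℝ) =
        (1 - (t : ℝ)) * (s i : ℝ) + (t : ℝ) * (s (i + 1) : ℝ) := fun t => rfl
    have hd1 : ∀ t : unitInterval,
        |((unitSeg (s i) (s (i + 1)) t : unitInterval) : ℝ) - (s i : ℝ)| ≤ 1 / (n : ℝ) := by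
      intro t
      have h0 : 0 ≤ (t : ℝ) := t.2.1
      have h1 : (t : ℝ) ≤ 1 := t.2.2
      rw [hunit, hv1, hv2]
      have e : (1 - (t : ℝ)) * ((i : ℝ) / n) + (t : ℝ) * (((i : ℝ) + 1) / n) - (i : ℝ) / n =
          (t : ℝ) * (1 / n) := by field_simp; ring
      rw [e, abs_of_nonneg (by positivity)]
      have : 0 ≤ 1 / (n : ℝ) := by positivity
      nlinarith
    have hd2 : ∀ t : unitInterval,
        |((unitSeg (s i) (s (i + 1)) t : unitInterval) : ℝ) - (s (i + 1) : ℝ)| ≤ 1 / (n : ℝ) := by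
      intro t
      have h0 : 0 ≤ (t : ℝ) := t.2.1
      have h1 : (t : ℝ) ≤ 1 := t.2.2
      rw [hunit, hv1, hv2]
      have e : (1 - (t : ℝ)) * ((i : ℝ) / n) + (t : ℝ) * (((i : ℝ) + 1) / n) - ((i : ℝ) + 1) / n =
          -((1 - (t : ℝ)) * (1 / n)) := by field_simp; ring
      have h2 : 0 ≤ (1 - (t : ℝ)) * (1 / (n : ℝ)) := by
        have : 0 ≤ 1 - (t : ℝ) := by linarith
        positivity
      rw [e, abs_neg, abs_of_nonneg h2]
      have : 0 ≤ 1 / (n : ℝ) := by positivity
      nlinarith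
    refine hSQ V (S.pre p h) H ?_ _ _ _ _ ?_ ?_ ?_ ?_
    · intro z
      exact PR_mem hh (hγ _) (hr _) (hr _) (hsm _ _ (hd1 z.1)) (hsm _ _ (hd2 z.1)) z.1.2.1
        z.1.2.2 z.2.2.1 z.2.2.2
    · intro t
      show γ (unitSeg (s i) (s (i + 1)) t) =
        (1 - ((0 : unitInterval) : ℝ)) • γ (unitSeg (s i) (s (i + 1)) t) +
          ((0 : unitInterval) : ℝ) • ((1 - (t : ℝ)) • vert (r (γ (s i))) +
            (t : ℝ) • vert (r (γ (s (i + 1)))))
      simp
    · intro t
      show (1 - (t : ℝ)) • vert (r (γ (s i))) + (t : ℝ) • vert (r (γ (s (i + 1)))) =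
        (1 - ((1 : unitInterval) : ℝ)) • γ (unitSeg (s i) (s (i + 1)) t) +
          ((1 : unitInterval) : ℝ) • ((1 - (t : ℝ)) • vert (r (γ (s i))) +
            (t : ℝ) • vert (r (γ (s (i + 1)))))
      simp
    · intro t
      show (1 - (t : ℝ)) • γ (s i) + (t : ℝ) • vert (r (γ (s i))) =
        (1 - (t : ℝ)) • γ (unitSeg (s i) (s (i + 1)) 0) +
          (t : ℝ) • ((1 - ((0 : unitInterval) : ℝ)) • vert (r (γ (s i))) +
            ((0 : unitInterval) : ℝ) • vert (r (γ (s (i + 1)))))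
      have e : unitSeg (s i) (s (i + 1)) 0 = s i := by
        apply Subtype.ext
        rw [hunit]
        simp
      rw [e]
      simp
    · intro t
      show (1 - (t : ℝ)) • γ (s (i + 1)) + (t : ℝ) • vert (r (γ (s (i + 1)))) =
        (1 - (t : ℝ)) • γ (unitSeg (s i) (s (i + 1)) 1) +
          (t : ℝ) • ((1 - ((1 : unitInterval) : ℝ)) • vert (r (γ (s i))) +
            ((1 : unitInterval) : ℝ) • vert (r (γ (s (i + 1)))))
      have e : unitSeg (s i) (s (i + 1)) 1 = s (i + 1) := by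
        apply Subtype.ext
        rw [hunit]
        simp
      rw [e]
      simp
  obtain ⟨-, hadd, hsum, -, -⟩ := hBIN V (S.pre p h)
  have htot := hadd _ _ hsd (hsum ℕ (Finset.range n) _ hpiece)
  convert htot using 1
  set g : Sing1 V →₀ ZMod 2 := Finsupp.single γ 1
  set P : ℕ → (Sing1 V →₀ ZMod 2) := fun i =>
    Finsupp.single (γ.comp (unitSeg (s i) (s (i + 1)))) 1
  set E : ℕ → (Sing1 V →₀ ZMod 2) := fun i =>
    Finsupp.single (segPath (vert (r (γ (s i)))) (vert (r (γ (s (i + 1)))))) 1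
  set Tr : ℕ → (Sing1 V →₀ ZMod 2) := fun i =>
    Finsupp.single (segPath (γ (s i)) (vert (r (γ (s i))))) 1 with hTr
  have e0 : (Finsupp.single (segPath (γ 0) (vert (r (γ 0)))) 1 : Sing1 V →₀ ZMod 2) = Tr 0 := by
    rw [hTr]; simp only [hs0]
  have e1 : (Finsupp.single (segPath (γ 1) (vert (r (γ 1)))) 1 : Sing1 V →₀ ZMod 2) = Tr n := by
    rw [hTr]; simp only [hsn]
  rw [e0, e1]
  show g + ∑ i ∈ Finset.range n, E i + Tr 0 + Tr n =
    g + ∑ i ∈ Finset.range n, P i + ∑ i ∈ Finset.range n, (P i + E i + Tr i + Tr (i + 1))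
  have h3 : ∑ i ∈ Finset.range n, (P i + E i + Tr i + Tr (i + 1)) =
      ∑ i ∈ Finset.range n, P i + ∑ i ∈ Finset.range n, E i + (Tr 0 + Tr n) := by
    rw [← PR_tel Tr n, ← Finset.sum_add_distrib, ← Finset.sum_add_distrib]
    refine Finset.sum_congr rfl fun i _ => ?_
    abel
  rw [h3]
  have h4 := PR_char _ (∑ i ∈ Finset.range n, P i)
  calc g + ∑ i ∈ Finset.range n, E i + Tr 0 + Tr n
      = g + 0 + ∑ i ∈ Finset.range n, E i + (Tr 0 + Tr n) := by abel
    _ = g + (∑ i ∈ Finset.range n, P i + ∑ i ∈ Finset.range n, P i) +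
        ∑ i ∈ Finset.range n, E i + (Tr 0 + Tr n) := by rw [h4]
    _ = _ := by abel

end Pool.Agent.helper45.TF
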